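import Pool.Agent.Helper70_RES.Stmts

/-!
Modules CPT, BND, SOL, LIM, CLO of squad RES.
-/

set_option autoImplicit false

open scoped InnerProductSpace ComplexConjugate Topology ENNReal
open MeasureTheory Filter

noncomputable section

namespace Pool.Agent.RES.H87

open Pool.Agent.Anderson Pool.Agent.Helper54.Bal Pool.Agent.QE

variable {d : ℕ}

lemma en_pos (n : ℕ) : 0 < en n := by
  unfold en
  positivity

lemma en_tendsto : Tendsto en atTop (𝓝 0) := tendsto_one_div_add_atTop_nhds_zero_nat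

lemma zz_im_ne (n : ℕ) (E : ℝ) : (zz (en n) E).im ≠ 0 := by
  rw [zz_im]
  exact (en_pos n).ne'

/-- CPT -/
theorem cpt : CptStmt := by
  intro d u C hu
  have hC : 0 ≤ C := (norm_nonneg _).trans (hu 0)
  have hS : IsCompact (Set.pi Set.univ fun _ : Site d => Metric.closedBall (0 : ℂ) C) :=
    isCompact_univ_pi fun _ => isCompact_closedBall _ _
  obtain ⟨φ, _, s, hs, hφ⟩ := hS.tendsto_subseq (x := fun n => (u n : Site d → ℂ)) (fun n x _ => by
    rw [mem_closedBall_zero_iff]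
    exact (lp.norm_apply_le_norm (by norm_num) (u n) x).trans (hu n))
  have hb : Bornology.IsBounded (Set.range fun n => u (s n)) := by
    rw [isBounded_iff_forall_norm_le]
    refine ⟨C, ?_⟩
    rintro _ ⟨n, rfl⟩
    exact hu _
  have hmem : Memℓp φ 2 := lp.memℓp_of_tendsto hb hφ
  have hle : ‖(⟨φ, hmem⟩ : L2 d)‖ ≤ C :=
    lp.norm_le_of_tendsto (F := fun n => u (s n)) (l := atTop)
      (Eventually.of_forall fun n => hu _) (f := (⟨φ, hmem⟩ : L2 d)) hφ
  refine ⟨⟨φ, hmem⟩, s, hs, hle, fun x => ?_⟩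
  exact (tendsto_pi_nhds.mp hφ) x

lemma lap_add (f g : L2 d) (y : Site d) : lap (f + g : L2 d) y = lap f y + lap g y := by
  rw [← Lap_apply, ← Lap_apply, ← Lap_apply, map_add, lp.coeFn_add, Pi.add_apply]

lemma lap_smul (c : ℂ) (g : L2 d) (y : Site d) : lap (c • g : L2 d) y = c * lap g y := by
  rw [← Lap_apply, ← Lap_apply, map_smul, lp.coeFn_smul, Pi.smul_apply, smul_eq_mul]

/-- the correction -/
def uu (V : Cfg d) (E : ℝ) (φ : L2 d) (n : ℕ) : L2 d :=
  ((en n : ℂ) * Complex.I) • G V (zz (en n) E) φ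

lemma uu_eq (V : Cfg d) (E : ℝ) (φ : L2 d) (n : ℕ) (y : Site d) :
    lap (uu V E φ n) y + ((V y : ℂ) - zz (en n) E) * uu V E φ n y =
      (en n : ℂ) * Complex.I * φ y := by
  unfold uu
  rw [lap_smul, lp.coeFn_smul, Pi.smul_apply, smul_eq_mul]
  have h := G_eq (V := V) (zz_im_ne n E) φ y
  rw [← h]
  ring

lemma norm_uu (V : Cfg d) (E : ℝ) (φ : L2 d) (n : ℕ) : ‖uu V E φ n‖ ≤ ‖φ‖ := by
  unfold uu
  rw [norm_smul, norm_mul, Complex.norm_I, mul_one, Complex.norm_real, Real.norm_eq_abs]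
  have h := (isRes_G V).norm_le (zz_im_ne n E) φ
  rwa [zz_im] at h

lemma GG_eq {V : Cfg d} {E : ℝ} {x : Site d} {φ : L2 d} (h : Sol V E x φ) (n : ℕ) :
    GG V E n x = φ + uu V E φ n := by
  symm
  refine G_unique (zz_im_ne n E) fun y => ?_
  have h1 := h y
  have h2 := uu_eq V E φ n y
  rw [lap_add, lp.coeFn_add, Pi.add_apply, del_apply, ← h1]
  have h3 : (zz (en n) E : ℂ) = (E : ℂ) + (en n : ℂ) * Complex.I := rfl
  rw [h3] at h2 ⊢
  linear_combination h2

/-- BND -/
theorem bnd : BndStmt := by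
  intro d V E x φ h n
  rw [GG_eq h]
  refine (norm_add_le _ _).trans ?_
  have := norm_uu V E φ n
  linarith

lemma tendsto_lap {u : ℕ → Site d → ℂ} {φ : Site d → ℂ}
    (h : ∀ x, Tendsto (fun n => u n x) atTop (𝓝 (φ x))) (y : Site d) :
    Tendsto (fun n => lap (u n) y) atTop (𝓝 (lap φ y)) := by
  unfold lap
  exact tendsto_finsetSum _ fun i _ => (h _).add (h _)

lemma tendsto_zz {s : ℕ → ℕ} (hs : Tendsto s atTop atTop) (E : ℝ) :
    Tendsto (fun n => zz (en (s n)) E) atTop (𝓝 (E : ℂ)) := by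
  unfold zz
  have h1 : Tendsto (fun n => (en (s n) : ℂ)) atTop (𝓝 ((0 : ℝ) : ℂ)) :=
    (Complex.continuous_ofReal.tendsto 0).comp (en_tendsto.comp hs)
  have h2 := (h1.mul_const Complex.I).const_add (E : ℂ)
  rw [Complex.ofReal_zero, zero_mul, add_zero] at h2
  exact h2

/-- SOL -/
theorem sol : SolStmt := by
  intro d V E x hb
  obtain ⟨C, hC⟩ := hb
  obtain ⟨φ, s, hs, _, hφ⟩ := cpt d (fun n => GG V E n x) C hC
  refine ⟨φ, fun y => ?_⟩
  have h1 := tendsto_lap hφ y
  have h2 : Tendsto (fun n => ((V y : ℂ) - zz (en (s n)) E) * GG V E (s n) x y) atTop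
      (𝓝 (((V y : ℂ) - E) * φ y)) :=
    ((tendsto_zz hs.tendsto_atTop E).const_sub _).mul (hφ y)
  have h3 := h1.add h2
  have h4 : (fun n => lap (GG V E (s n) x) y +
      ((V y : ℂ) - zz (en (s n)) E) * GG V E (s n) x y) = fun _ => del x y := by
    funext n
    exact G_eq (zz_im_ne _ E) (del x) y
  rw [h4] at h3
  have h5 := tendsto_nhds_unique h3 tendsto_const_nhds
  rw [h5, del_apply]

/-- LIM -/
theorem lim : LimStmt := by
  intro d V E x φ hE hφ y
  have h0 : Tendsto (fun n => uu V E φ n y) atTop (𝓝 0) := by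
    refine tendsto_of_subseq_tendsto fun ns hns => ?_
    obtain ⟨ψ, s, hs, _, hψ⟩ := cpt d (fun n => uu V E φ (ns n)) ‖φ‖ fun n => norm_uu V E φ _
    have hψ0 : Eig V E ψ := by
      intro w
      have h1 := tendsto_lap hψ w
      have hz := tendsto_zz (hns.comp hs.tendsto_atTop) E
      have h2 : Tendsto (fun n => ((V w : ℂ) - zz (en (ns (s n))) E) * uu V E φ (ns (s n)) w) atTop
          (𝓝 (((V w : ℂ) - E) * ψ w)) := (hz.const_sub _).mul (hψ w)
      have h3 := h1.add h2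
      have h4 : (fun n => lap (uu V E φ (ns (s n))) w +
          ((V w : ℂ) - zz (en (ns (s n))) E) * uu V E φ (ns (s n)) w) =
          fun n => (en (ns (s n)) : ℂ) * Complex.I * φ w := by
        funext n
        exact uu_eq V E φ _ w
      rw [h4] at h3
      have h5 : Tendsto (fun n => (en (ns (s n)) : ℂ) * Complex.I * φ w) atTop (𝓝 0) := by
        have h6 : Tendsto (fun n => (en (ns (s n)) : ℂ)) atTop (𝓝 ((0 : ℝ) : ℂ)) :=
          (Complex.continuous_ofReal.tendsto 0).comp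
            (en_tendsto.comp (hns.comp hs.tendsto_atTop))
        have h7 := (h6.mul_const Complex.I).mul_const (φ w)
        rw [Complex.ofReal_zero, zero_mul, zero_mul] at h7
        exact h7
      exact tendsto_nhds_unique h3 h5
    have h6 := hE ψ hψ0
    refine ⟨s, ?_⟩
    have h7 := hψ y
    rw [h6] at h7
    exact h7
  have h1 : (fun n => GG V E n x y) = fun n => φ y + uu V E φ n y := by
    funext n
    rw [GG_eq hφ, lp.coeFn_add, Pi.add_apply]
  rw [h1]
  have h2 := h0.const_add (φ y)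
  rwa [add_zero] at h2

/-- CLO -/
theorem clo : CloStmt := by
  intro d a m hm F hF
  refine IsSeqClosed.isClosed ?_
  intro V V₀ hV hlim
  choose E hE ψ hψ hψa hψm hEF using hV
  obtain ⟨E₀, hE₀, s, hs, hEs⟩ := isCompact_Icc.tendsto_subseq hE
  obtain ⟨ψ₀, t, ht, hψ₀m, hψt⟩ := cpt d (fun n => ψ (s n)) m fun n => hψm _
  have hst : Tendsto (fun n => s (t n)) atTop atTop := hs.tendsto_atTop.comp ht.tendsto_atTop
  have hEst : Tendsto (fun n => E (s (t n))) atTop (𝓝 E₀) := hEs.comp ht.tendsto_atTop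
  have hVst : Tendsto (fun n => V (s (t n))) atTop (𝓝 V₀) := hlim.comp hst
  refine ⟨E₀, hE₀, ψ₀, ?_, ?_, hψ₀m, ?_⟩
  · intro y
    have h1 := tendsto_lap hψt y
    have h2 : Tendsto (fun n => ((V (s (t n)) y : ℝ) : ℂ)) atTop (𝓝 ((V₀ y : ℝ) : ℂ)) :=
      (Complex.continuous_ofReal.tendsto _).comp ((tendsto_pi_nhds.mp hVst) y)
    have h3 : Tendsto (fun n => ((E (s (t n)) : ℝ) : ℂ)) atTop (𝓝 ((E₀ : ℝ) : ℂ)) :=
      (Complex.continuous_ofReal.tendsto _).comp hEst
    have h4 := h1.add ((h2.sub h3).mul (hψt y))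
    have h5 : (fun n => lap (ψ (s (t n))) y + (((V (s (t n)) y : ℝ) : ℂ) -
        ((E (s (t n)) : ℝ) : ℂ)) * ψ (s (t n)) y) = fun _ => (0 : ℂ) := by
      funext n
      exact hψ (s (t n)) y
    rw [h5] at h4
    exact tendsto_nhds_unique h4 tendsto_const_nhds
  · have h1 := hψt a
    have h2 : (fun n => ψ (s (t n)) a) = fun _ => (1 : ℂ) := by
      funext n
      exact hψa _
    rw [h2] at h1
    exact tendsto_nhds_unique h1 tendsto_const_nhds
  · exact hF.mem_of_tendsto (hVst.prodMk_nhds hEst) (Eventually.of_forall fun n => hEF _)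

end Pool.Agent.RES.H87
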